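import Pool.Agent.J4H99.PK.Stm
import Pool.Agent.R965.EV.Scales
import Pool.Agent.R965.EV.Low

/-!
Project PK (helper99), job GWB (helper94): good pairs, recursion over the scales.
-/

set_option autoImplicit false

namespace Pool.Agent.J4H94.PK

open MeasureTheory Filter Topology Pool.Agent.Y995.HG Pool.Agent.Y41.EV Pool.Agent.R965.EV
open Pool.Agent.J4H99.PK

theorem GP.mono {f : C(unitInterval, ℂ)} {T C1 η η' : ℝ} {s t s' t' a b : unitInterval} {w : ℝ}
    (h : GP f T C1 η' s t a b w) (hs : s' ≤ s) (ht : t ≤ t') (hη : η' ≤ η) :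
    GP f T C1 η s' t' a b w := by
  obtain ⟨h1, h2, h3, h4, h5, h6, h7, h8⟩ := h
  exact ⟨hs.trans h1, h2, h3.trans ht, h4.trans hη, h5, h6.trans hη, h7, h8⟩

theorem GW.le {f : C(unitInterval, ℂ)} {T C1 η : ℝ} {s t : unitInterval} {x y : ℝ}
    (h : GW f T C1 η s t x) (hxy : y ≤ x) : GW f T C1 η s t y := by
  obtain ⟨n, a, b, w, h1, h2, h3⟩ := h
  exact ⟨n, a, b, w, h1, h2, hxy.trans h3⟩

theorem GW.mesh {f : C(unitInterval, ℂ)} {T C1 η η' : ℝ} {s t : unitInterval} {x : ℝ}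
    (h : GW f T C1 η' s t x) (hη : η' ≤ η) : GW f T C1 η s t x := by
  obtain ⟨n, a, b, w, h1, h2, h3⟩ := h
  exact ⟨n, a, b, w, fun i hi => GP.mono (h1 i hi) le_rfl le_rfl hη, h2, h3⟩

theorem GW.zero (f : C(unitInterval, ℂ)) (T C1 η : ℝ) (s t : unitInterval) :
    GW f T C1 η s t 0 :=
  ⟨0, fun _ => s, fun _ => s, fun _ => 0, fun i hi => absurd hi (by omega),
    fun i j _ hj => absurd hj (by omega), by simp⟩

theorem GW.single {f : C(unitInterval, ℂ)} {T C1 η : ℝ} {s t a b : unitInterval} {w : ℝ}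
    (h : GP f T C1 η s t a b w) : GW f T C1 η s t (psi w) :=
  ⟨1, fun _ => a, fun _ => b, fun _ => w, fun _ _ => h,
    fun i j _ hj => absurd hj (by omega), by simp⟩

/-- Concatenation. -/
theorem GW.add {f : C(unitInterval, ℂ)} {T C1 η : ℝ} {s t u : unitInterval} {x y : ℝ}
    (h : GW f T C1 η s t x) (h' : GW f T C1 η t u y) (hst : s ≤ t) (htu : t ≤ u) :
    GW f T C1 η s u (x + y) := by
  obtain ⟨n, a, b, w, h1, h2, h3⟩ := h
  obtain ⟨n', a', b', w', h1', h2', h3'⟩ := h'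
  refine ⟨n + n', fun i => if i < n then a i else a' (i - n),
    fun i => if i < n then b i else b' (i - n), fun i => if i < n then w i else w' (i - n),
    ?_, ?_, ?_⟩
  · intro i hi
    by_cases hin : i < n
    · simp only [hin, if_true]
      exact GP.mono (h1 i hin) le_rfl htu le_rfl
    · simp only [hin, if_false]
      exact GP.mono (h1' (i - n) (by omega)) hst le_rfl le_rfl
  · intro i j hij hj
    by_cases hjn : j < n
    · have hin : i < n := by omega
      simp only [hin, hjn, if_true]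
      exact h2 i j hij hjn
    · by_cases hin : i < n
      · simp only [hin, hjn, if_true, if_false]
        exact (h1 i hin).2.2.1.trans (h1' (j - n) (by omega)).1
      · simp only [hin, hjn, if_false]
        exact h2' (i - n) (j - n) (by omega) (by omega)
  · rw [Finset.sum_range_add]
    refine add_le_add (h3.trans (le_of_eq ?_)) (h3'.trans (le_of_eq ?_))
    · refine Finset.sum_congr rfl fun i hi => ?_
      rw [Finset.mem_range] at hi
      simp only [hi, if_true]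
    · refine Finset.sum_congr rfl fun i hi => ?_
      have : ¬ (n + i < n) := by omega
      simp only [this, if_false, Nat.add_sub_cancel_left]

/-- The same with pairs in increasing order. -/
def GPairsO (f : C(unitInterval, ℂ)) (T w τ : ℝ) (N : ℕ) (s t : unitInterval) : Prop :=
  ∃ u v : Fin N → unitInterval, (∀ a, s ≤ u a ∧ u a ≤ v a ∧ v a ≤ t) ∧
    (∀ a b, a < b → v a ≤ u b) ∧
    ∀ a, w ≤ dist (f (u a)) (f (v a)) ∧ T * ((v a : ℝ) - u a) ≤ τ ∧
      T * (volume {r : unitInterval | dist (f r) (f (u a)) < w / 4}).toReal ≤ τ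

theorem GPairs.sort {f : C(unitInterval, ℂ)} {T w τ : ℝ} {N : ℕ} {s t : unitInterval}
    (hw : 0 < w) (h : GPairs f T w τ N s t) : GPairsO f T w τ N s t := by
  obtain ⟨u, v, h1, h2, h3⟩ := h
  obtain ⟨σ, hσ⟩ : ∃ σ : Equiv.Perm (Fin N), σ = Tuple.sort u := ⟨_, rfl⟩
  have hm : Monotone (u ∘ σ) := by rw [hσ]; exact Tuple.monotone_sort u
  refine ⟨u ∘ σ, v ∘ σ, fun a => h1 (σ a), fun a b hab => ?_, fun a => h3 (σ a)⟩
  have hne : σ a ≠ σ b := fun h => hab.ne (σ.injective h)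
  rcases h2 _ _ hne with h | h
  · exact h
  · exfalso
    have h4 : u (σ a) ≤ u (σ b) := hm hab.le
    have h5 : u (σ b) ≤ v (σ b) := (h1 (σ b)).2.1
    have h6 : u (σ b) = v (σ b) := le_antisymm h5 (h.trans h4)
    have h7 := (h3 (σ b)).1
    rw [h6, dist_self] at h7
    linarith

/-- One step of the tree, by induction over the number of pairs. -/
theorem gtree_aux (f : C(unitInterval, ℂ)) (η T C1 α w τ ℓ : ℝ) (hT : 0 < T)
    (hα : 0 ≤ α) (hw : 0 < w) (hwη : w ≤ η) (hℓ : 0 < ℓ) (hτ : τ ≤ η * T) (hτ1 : τ ≤ C1 * psi w) :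
    ∀ (N : ℕ) (s t : unitInterval), s ≤ t →
    (∀ s' t' : unitInterval, s ≤ s' → s' ≤ t' → t' ≤ t → ℓ < T * ((t' : ℝ) - s') →
      GW f T C1 η s' t' (α * (T * ((t' : ℝ) - s')))) →
    GPairsO f T w τ N s t →
    GW f T C1 η s t (α * (T * ((t : ℝ) - s)) - α * ℓ + N * (psi w - α * (τ + ℓ))) := by
  have hzero : ∀ s t : unitInterval, s ≤ t →
      (∀ s' t' : unitInterval, s ≤ s' → s' ≤ t' → t' ≤ t → ℓ < T * ((t' : ℝ) - s') →
      GW f T C1 η s' t' (α * (T * ((t' : ℝ) - s')))) →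
      GW f T C1 η s t (α * (T * ((t : ℝ) - s)) - α * ℓ) := by
    intro s t hst hV
    rcases lt_or_ge ℓ (T * ((t : ℝ) - s)) with h | h
    · refine GW.le (hV s t le_rfl hst le_rfl h) ?_
      have : 0 ≤ α * ℓ := mul_nonneg hα hℓ.le
      linarith
    · refine GW.le (GW.zero f T C1 η s t) ?_
      have := mul_le_mul_of_nonneg_left h hα
      linarith
  intro N
  induction N with
  | zero =>
    intro s t hst hV _
    have := hzero s t hst hV
    simpa using this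
  | succ N ih =>
    intro s t hst hV hP
    obtain ⟨u, v, h1, h2, h3⟩ := hP
    obtain ⟨g1, g2, g3⟩ := h1 (Fin.last N)
    obtain ⟨k1, k2, k3⟩ := h3 (Fin.last N)
    -- the first part
    have a1 : GW f T C1 η s (u (Fin.last N)) (α * (T * ((u (Fin.last N) : ℝ) - s)) - α * ℓ +
        N * (psi w - α * (τ + ℓ))) := by
      refine ih s _ g1 (fun s' t' q1 q2 q3 q4 => hV s' t' q1 q2 (q3.trans (g2.trans g3)) q4) ?_
      refine ⟨fun a => u a.castSucc, fun a => v a.castSucc, fun a => ⟨(h1 _).1, (h1 _).2.1, ?_⟩,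
        fun a b hab => h2 _ _ ?_, fun a => h3 _⟩
      · exact h2 _ _ (Fin.castSucc_lt_last a)
      · exact Fin.castSucc_lt_castSucc_iff.2 hab
    -- the pair
    have huv : ((v (Fin.last N) : ℝ)) - u (Fin.last N) ≤ η := by
      have : T * ((v (Fin.last N) : ℝ) - u (Fin.last N)) ≤ T * η := by linarith
      exact le_of_mul_le_mul_left this hT
    have a2 : GW f T C1 η (u (Fin.last N)) (v (Fin.last N)) (psi w) :=
      GW.single ⟨le_rfl, g2, le_rfl, huv, hw, hwη, k1, k3.trans hτ1⟩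
    -- the last part
    have a3 : GW f T C1 η (v (Fin.last N)) t (α * (T * ((t : ℝ) - v (Fin.last N))) - α * ℓ) :=
      hzero _ _ g3 fun s' t' q1 q2 q3 q4 => hV s' t' (g1.trans (g2.trans q1)) q2 q3 q4
    refine GW.le (GW.add (GW.add a1 a2 g1 g2) a3 (g1.trans g2) g3) ?_
    have h5 := mul_le_mul_of_nonneg_left k2 hα
    push_cast
    nlinarith

theorem gtree1 (f : C(unitInterval, ℂ)) (η T C1 c0 α w τ ℓ : ℝ) (N : ℕ)
    (s t : unitInterval) (hT : 0 < T) (hN : 1 ≤ N) (hα : 0 ≤ α) (hα0 : α ≤ c0) (hw : 0 < w)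
    (hwη : w ≤ η) (hℓ : 0 < ℓ) (hst : s ≤ t) (hc : c0 * (2 * τ + 4 * ℓ) ≤ psi w)
    (hτ : τ ≤ η * T) (hτ1 : τ ≤ C1 * psi w)
    (hV : ∀ s' t' : unitInterval, s ≤ s' → s' ≤ t' → t' ≤ t → ℓ < T * ((t' : ℝ) - s') →
      GW f T C1 η s' t' (α * (T * ((t' : ℝ) - s'))))
    (hP : GPairsO f T w τ N s t) :
    GW f T C1 η s t (α * (T * ((t : ℝ) - s)) + N * psi w / 2) := by
  refine GW.le (gtree_aux f η T C1 α w τ ℓ hT hα hw hwη hℓ hτ hτ1 N s t hst hV hP) ?_
  have hN1 : (1:ℝ) ≤ N := by exact_mod_cast hN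
  have hψ : 0 ≤ psi w := psi_nonneg hw.le
  have h1 : α * (τ + 2 * ℓ) ≤ psi w / 2 := by
    rcases le_or_gt 0 (τ + 2 * ℓ) with h | h
    · have := mul_le_mul_of_nonneg_right hα0 h
      linarith
    · have := mul_nonneg hα (neg_nonneg.2 h.le)
      linarith
  have h2 : α * ℓ ≤ N * (α * ℓ) := by
    have : 0 ≤ α * ℓ := mul_nonneg hα hℓ.le
    nlinarith
  have h3 : (N:ℝ) * (α * (τ + 2 * ℓ)) ≤ N * (psi w / 2) :=
    mul_le_mul_of_nonneg_left h1 (by linarith)
  nlinarith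

theorem gtree2 (f : C(unitInterval, ℂ)) (η T C1 c0 : ℝ) (N : ℕ → ℕ) (ℓ τ w a : ℕ → ℝ)
    (i0 : ℕ) (I0 : Set unitInterval) (hT : 0 < T) (hc0 : 0 < c0)
    (hi : ∀ i, i0 ≤ i → 1 ≤ N i ∧ 0 < w i ∧ w i ≤ η ∧ 0 < ℓ i ∧ 0 ≤ a i ∧ τ i ≤ η * T ∧
      τ i ≤ C1 * psi (w i))
    (hsc : ∀ i, i0 ≤ i → c0 * (2 * τ i + 4 * ℓ (i + 1)) ≤ psi (w i))
    (hg : ∀ i, i0 ≤ i → 4 * ℓ i * a i ≤ N i * psi (w i))
    (hP : ∀ i, i0 ≤ i → ∀ s t : unitInterval, Set.Icc s t ⊆ I0 → ℓ i < T * ((t : ℝ) - s) →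
      GPairsO f T (w i) (τ i) (N i) s t) :
    ∀ m : ℕ, ∀ s t : unitInterval, Set.Icc s t ⊆ I0 → ℓ i0 < T * ((t : ℝ) - s) →
      GW f T C1 η s t (min c0 (∑ i ∈ Finset.Ico i0 (i0 + m), a i) * (T * ((t : ℝ) - s))) := by
  intro m
  induction m generalizing i0 with
  | zero =>
    intro s t _ hl
    refine GW.le (GW.zero f T C1 η s t) ?_
    simp [hc0.le]
  | succ m ih =>
    obtain ⟨hN, hw, hwη, hℓ, ha, hτ, hτ1⟩ := hi i0 le_rfl
    have ih' := ih (i0 + 1) (fun i h => hi i (by omega)) (fun i h => hsc i (by omega))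
      (fun i h => hg i (by omega)) (fun i h => hP i (by omega))
    obtain ⟨α, hα⟩ : ∃ α : ℝ, α = min c0 (∑ i ∈ Finset.Ico (i0 + 1) (i0 + 1 + m), a i) :=
      ⟨_, rfl⟩
    rw [← hα] at ih'
    have hα0 : 0 ≤ α := by
      rw [hα]
      refine le_min hc0.le (Finset.sum_nonneg fun i hh => ?_)
      rw [Finset.mem_Ico] at hh
      exact (hi i (by omega)).2.2.2.2.1
    have hαc : α ≤ c0 := by rw [hα]; exact min_le_left _ _
    obtain ⟨β, hβ⟩ : ∃ β : ℝ, β = min c0 (∑ i ∈ Finset.Ico i0 (i0 + (m + 1)), a i) := ⟨_, rfl⟩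
    have hβα : β ≤ α + a i0 := by
      have e : ∑ i ∈ Finset.Ico i0 (i0 + (m + 1)), a i =
          a i0 + ∑ i ∈ Finset.Ico (i0 + 1) (i0 + 1 + m), a i := by
        rw [Finset.sum_eq_sum_Ico_succ_bot (by omega)]
        congr 2
        congr 1
        omega
      rw [hβ, hα, e]
      rcases le_total c0 (∑ i ∈ Finset.Ico (i0 + 1) (i0 + 1 + m), a i) with h | h
      · rw [min_eq_left h]
        exact (min_le_left _ _).trans (by linarith)
      · rw [min_eq_right h]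
        exact (min_le_right _ _).trans (by linarith)
    have hℓ1 := (hi (i0 + 1) (by omega)).2.2.2.1
    have hpos : ∀ s t : unitInterval, ℓ i0 < T * ((t : ℝ) - s) → (s : ℝ) < t := by
      intro s t h
      by_contra hcon
      push Not at hcon
      have := mul_nonpos_of_nonneg_of_nonpos hT.le (sub_nonpos.2 hcon)
      linarith
    -- short pieces
    have hshort : ∀ s t : unitInterval, Set.Icc s t ⊆ I0 → ℓ i0 < T * ((t : ℝ) - s) →
        T * ((t : ℝ) - s) ≤ 2 * ℓ i0 → GW f T C1 η s t (β * (T * ((t : ℝ) - s))) := by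
      intro s t hI hl hl2
      have hst := hpos s t hl
      have h1 := gtree1 f η T C1 c0 α (w i0) (τ i0) (ℓ (i0 + 1)) (N i0) s t hT hN hα0 hαc hw hwη
        hℓ1 hst.le (hsc i0 le_rfl) hτ hτ1
        (fun s' t' q1 q2 q3 q4 => ih' s' t' (fun x hx => hI ⟨q1.trans hx.1, hx.2.trans q3⟩) q4)
        (hP i0 le_rfl s t hI hl)
      refine GW.le h1 ?_
      have h2 := hg i0 le_rfl
      have h3 : a i0 * (T * ((t : ℝ) - s)) ≤ a i0 * (2 * ℓ i0) := mul_le_mul_of_nonneg_left hl2 ha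
      have h4 : 0 < T * ((t : ℝ) - s) := hℓ.trans hl
      have h5 := mul_le_mul_of_nonneg_right hβα h4.le
      nlinarith
    -- all pieces
    have hall : ∀ n : ℕ, ∀ s t : unitInterval, Set.Icc s t ⊆ I0 → ℓ i0 < T * ((t : ℝ) - s) →
        T * ((t : ℝ) - s) ≤ (n + 2) * ℓ i0 → GW f T C1 η s t (β * (T * ((t : ℝ) - s))) := by
      intro n
      induction n with
      | zero =>
        intro s t hI hl hl2
        exact hshort s t hI hl (by simpa using hl2)
      | succ n ihn =>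
        intro s t hI hl hl2
        rcases le_or_gt (T * ((t : ℝ) - s)) (2 * ℓ i0) with h | h
        · exact hshort s t hI hl h
        · have hst := hpos s t hl
          have e1 : ((mid s t : unitInterval) : ℝ) = ((s : ℝ) + t) / 2 := rfl
          have m1 : s ≤ mid s t := show (s:ℝ) ≤ ((s : ℝ) + t) / 2 by linarith
          have m2 : mid s t ≤ t := show ((s : ℝ) + t) / 2 ≤ (t:ℝ) by linarith
          have e2 : T * (((mid s t : unitInterval) : ℝ) - s) = T * ((t : ℝ) - s) / 2 := by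
            rw [e1]; ring
          have e3 : T * ((t : ℝ) - (mid s t : unitInterval)) = T * ((t : ℝ) - s) / 2 := by
            rw [e1]; ring
          push_cast at hl2
          have hn : T * ((t : ℝ) - s) / 2 ≤ (n + 2) * ℓ i0 := by nlinarith
          have v1 := ihn s (mid s t) (fun x hx => hI ⟨hx.1, hx.2.trans m2⟩)
            (by rw [e2]; linarith) (by rw [e2]; exact hn)
          have v2 := ihn (mid s t) t (fun x hx => hI ⟨m1.trans hx.1, hx.2⟩)
            (by rw [e3]; linarith) (by rw [e3]; exact hn)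
          refine GW.le (GW.add v1 v2 m1 m2) (le_of_eq ?_)
          rw [e2, e3]
          ring
    intro s t hI hl
    rw [← hβ]
    obtain ⟨n, hn⟩ := exists_nat_gt (T * ((t : ℝ) - s) / ℓ i0)
    rw [div_lt_iff₀ hℓ] at hn
    exact hall n s t hI hl (by nlinarith)

theorem ww_tendsto : Tendsto ww atTop (𝓝 0) := by
  have h1 : Tendsto (fun i : ℕ => ((1:ℝ)/2) ^ i) atTop (𝓝 0) :=
    tendsto_pow_atTop_nhds_zero_of_lt_one (by norm_num) (by norm_num)
  refine squeeze_zero (fun i => (ww_pos i).le) (fun i => ?_) h1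
  unfold ww
  refine pow_le_pow_of_le_one (by norm_num) (by norm_num) ?_
  nlinarith [Nat.zero_le i, Nat.le_self_pow (n := 2) (by norm_num) i]

theorem t_GWB : S_GWB := by
  intro θ K2 A0 hθ hK hA
  obtain ⟨c0, hc0, hsc⟩ := sc1 θ K2 A0 hθ hK hA
  obtain ⟨q1, q2, q3, q4, q5, -⟩ := sc3 θ K2 A0 hθ hK hA
  refine ⟨c0, 1 / (2 * c0), hc0, by positivity, ?_⟩
  intro f T I0 hT hP s t hst hI η hη
  rcases eq_or_lt_of_le hst with h | h
  · subst h
    simpa using GW.zero f T (1 / (2 * c0)) η s s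
  have hst' : (s:ℝ) < t := h
  have hpos : 0 < η * T := by positivity
  have hlen : 0 < T * ((t : ℝ) - s) := mul_pos hT (by linarith)
  have hev : ∀ᶠ i : ℕ in atTop, (20 ≤ i ∧ c0 * (2 * tau θ K2 i + 4 * ell A0 K2 (i + 1)) ≤
      psi (ww i)) ∧ (tau θ K2 i ≤ η * T ∧ ww i ≤ η) ∧
      (0 < ell A0 K2 i ∧ ell A0 K2 i < T * ((t : ℝ) - s)) ∧
      (∀ s t : unitInterval, Set.Icc s t ⊆ I0 →
        ell A0 K2 i < T * ((t : ℝ) - s) → GPairs f T (ww i) (tau θ K2 i) (NN i) s t) := by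
    filter_upwards [eventually_ge_atTop 20, hsc, q2.eventually (ge_mem_nhds hpos),
      ww_tendsto.eventually (ge_mem_nhds hη), q5, q1.eventually (gt_mem_nhds hlen), hP] with
      i g1 g2 g3 g4 g5 g6 g7
    exact ⟨⟨g1, g2⟩, ⟨g3, g4⟩, ⟨g5, g6⟩, g7⟩
  rw [eventually_atTop] at hev
  obtain ⟨i0, hi0⟩ := hev
  have hN : ∀ i, i0 ≤ i → 1 ≤ NN i := by
    intro i hi
    have := NN_big (hi0 i hi).1.1
    omega
  have hm : ∀ m : ℕ, GW f T (1 / (2 * c0)) η s t
      (min c0 (∑ i ∈ Finset.Ico i0 (i0 + m), aa A0 K2 i) * (T * ((t : ℝ) - s))) := by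
    intro m
    refine gtree2 f η T (1 / (2 * c0)) c0 NN (ell A0 K2) (tau θ K2) ww (aa A0 K2) i0 I0 hT hc0
      ?_ (fun i hi => (hi0 i hi).1.2) ?_ ?_ m s t hI (hi0 i0 le_rfl).2.2.1.2
    · intro i hi
      obtain ⟨g1, ⟨g3, g4⟩, ⟨g5, g6⟩, g7⟩ := hi0 i hi
      refine ⟨hN i hi, ww_pos i, g4, g5, aa_nonneg hA i, g3, ?_⟩
      have h1 := (hi0 (i + 1) (by omega)).2.2.1.1
      have h2 : c0 * (2 * tau θ K2 i) ≤ psi (ww i) := by
        refine le_trans ?_ g1.2
        exact mul_le_mul_of_nonneg_left (by linarith) hc0.le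
      rw [one_div, ← div_eq_inv_mul, le_div_iff₀ (by positivity)]
      linarith
    · intro i hi
      obtain ⟨g1, ⟨g3, g4⟩, ⟨g5, g6⟩, g7⟩ := hi0 i hi
      unfold aa
      refine le_of_eq ?_
      field_simp
    · intro i hi s' t' hI' hl
      exact GPairs.sort (ww_pos i) ((hi0 i hi).2.2.2 s' t' hI' hl)
  obtain ⟨m, hm1⟩ := ((sc2 K2 A0 hK hA i0).eventually_ge_atTop c0).exists
  have h1 := hm m
  rw [min_eq_left hm1] at h1
  refine GW.le h1 (le_of_eq ?_)
  ring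

end Pool.Agent.J4H94.PK
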