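import Pool.Agent.J4H99.PK.Stm
import Pool.Agent.R965.EV.Upper
import Pool.Agent.R965.EV.LilLow

/-!
Project PK (helper99), job LI (helper94): from good pairs to almost every time.
-/

set_option autoImplicit false

namespace Pool.Agent.J4H94.PK

open MeasureTheory Filter Topology Pool.Agent.Y995.HG Pool.Agent.Y41.EV Pool.Agent.R965.EV
open Pool.Agent.J4H99.PK
open scoped ENNReal

/-- doubling -/
theorem psi_48 {w : ℝ} (hw : 0 < w) (h1 : w ≤ Real.exp (-1)) {c : ℝ} (hc : 1 / 48 ≤ c)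
    (hc1 : c ≤ 1) : psi w ≤ 48 ^ 3 * psi (c * w) := by
  have hc0 : 0 < c := lt_of_lt_of_le (by norm_num) hc
  have hcw : 0 < c * w := by positivity
  have hle : c * w ≤ w := by nlinarith
  have e1 := ll_scale hcw hle h1
  have e2 : w / (c * w) ≤ 48 := by
    rw [div_le_iff₀ hcw]
    nlinarith
  have hl := ll_pos w
  have hl2 := ll_pos (c * w)
  have e3 : ll (c * w) ≤ 48 * ll w := e1.trans (mul_le_mul_of_nonneg_right e2 hl.le)
  have e4 : ll (c * w) ^ (3/4 : ℝ) ≤ 48 * ll w ^ (3/4 : ℝ) := by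
    calc ll (c * w) ^ (3/4 : ℝ) ≤ (48 * ll w) ^ (3/4 : ℝ) :=
          Real.rpow_le_rpow hl2.le e3 (by norm_num)
      _ = 48 ^ (3/4 : ℝ) * ll w ^ (3/4 : ℝ) := Real.mul_rpow (by norm_num) hl.le
      _ ≤ 48 * ll w ^ (3/4 : ℝ) := by
          refine mul_le_mul_of_nonneg_right ?_ (by positivity)
          have := Real.rpow_le_rpow_of_exponent_le (show (1:ℝ) ≤ 48 by norm_num)
            (show (3/4 : ℝ) ≤ 1 by norm_num)
          rwa [Real.rpow_one] at this
  have e5 : w ^ (7/4 : ℝ) ≤ 48 ^ 2 * (c * w) ^ (7/4 : ℝ) := by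
    have a1 : w ≤ 48 * (c * w) := by nlinarith
    calc w ^ (7/4 : ℝ) ≤ (48 * (c * w)) ^ (7/4 : ℝ) := Real.rpow_le_rpow hw.le a1 (by norm_num)
      _ = 48 ^ (7/4 : ℝ) * (c * w) ^ (7/4 : ℝ) := Real.mul_rpow (by norm_num) hcw.le
      _ ≤ 48 ^ 2 * (c * w) ^ (7/4 : ℝ) := by
          refine mul_le_mul_of_nonneg_right ?_ (by positivity)
          have := Real.rpow_le_rpow_of_exponent_le (show (1:ℝ) ≤ 48 by norm_num)
            (show (7/4 : ℝ) ≤ 2 by norm_num)
          have e : (48:ℝ) ^ (2:ℝ) = 48 ^ 2 := by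
            rw [← Real.rpow_natCast]; norm_num
          rwa [e] at this
  unfold psi
  rw [div_le_iff₀ (by positivity)]
  have e6 : (1:ℝ) ≤ 48 * ll w ^ (3/4 : ℝ) / ll (c * w) ^ (3/4 : ℝ) := by
    rw [le_div_iff₀ (by positivity), one_mul]
    exact e4
  calc w ^ (7/4 : ℝ) ≤ 48 ^ 2 * (c * w) ^ (7/4 : ℝ) := e5
    _ = 48 ^ 2 * (c * w) ^ (7/4 : ℝ) * 1 := by ring
    _ ≤ 48 ^ 2 * (c * w) ^ (7/4 : ℝ) * (48 * ll w ^ (3/4 : ℝ) / ll (c * w) ^ (3/4 : ℝ)) :=
        mul_le_mul_of_nonneg_left e6 (by positivity)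
    _ = 48 ^ 3 * ((c * w) ^ (7/4 : ℝ) / ll (c * w) ^ (3/4 : ℝ)) * ll w ^ (3/4 : ℝ) := by ring

/-- Density points. -/
theorem density' (B : Set unitInterval) (hB : volume B ≠ 0) {κ : ℝ} (hκ : 0 < κ) (hκ1 : κ < 1) :
    ∃ s : unitInterval, s ∈ B ∧ (s : ℝ) < 1 ∧ ∀ᶠ y : ℝ in 𝓝[>] (s : ℝ),
      ∀ hy : y ∈ unitInterval,
      ENNReal.ofReal ((1 - κ) * (y - s)) ≤ volume (B ∩ Set.Icc s ⟨y, hy⟩) := by
  have hB1 : volume (B \ {1}) ≠ 0 := by
    rw [measure_sdiff_null (measure_singleton _)]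
    exact hB
  obtain ⟨S, hS⟩ : ∃ S : Set ℝ, S = Subtype.val '' (B \ {1}) := ⟨_, rfl⟩
  have hS0 : volume S ≠ 0 := by
    rw [hS, ← unitInterval.volume_apply]
    exact hB1
  obtain ⟨x, hx, hlim⟩ := Measure.exists_mem_of_measure_ne_zero_of_ae hS0
    (VitaliFamily.ae_tendsto_measure_inter_div
      (IsUnifLocDoublingMeasure.vitaliFamily (volume : Measure ℝ) 1) S)
  have hlim2 := hlim.comp (Real.tendsto_Icc_vitaliFamily_right x)
  have hκ2 : ENNReal.ofReal (1 - κ) < 1 := by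
    rw [← ENNReal.ofReal_one]
    exact (ENNReal.ofReal_lt_ofReal_iff (by norm_num)).2 (by linarith)
  have hev := hlim2.eventually (lt_mem_nhds hκ2)
  rw [hS] at hx
  obtain ⟨s, ⟨hsB, hs1⟩, rfl⟩ := hx
  have hslt : (s : ℝ) < 1 := lt_of_le_of_ne s.2.2 fun h => hs1 (Subtype.ext h)
  have hev2 : ∀ᶠ y in 𝓝[>] (s : ℝ), y ∈ Set.Ioo (s : ℝ) 1 := Ioo_mem_nhdsGT hslt
  refine ⟨s, hsB, hslt, ?_⟩
  filter_upwards [hev, hev2] with y hy1 hy23 hyu
  obtain ⟨hy2, hy3⟩ := hy23
  simp only [Function.comp] at hy1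
  have h1 : volume (S ∩ Set.Icc (s : ℝ) y) ≤ volume (B ∩ Set.Icc s ⟨y, hyu⟩) := by
    rw [unitInterval.volume_apply]
    refine measure_mono ?_
    rintro z ⟨hz1, hz2⟩
    rw [hS] at hz1
    obtain ⟨w, ⟨hw, -⟩, rfl⟩ := hz1
    exact ⟨w, ⟨hw, hz2.1, hz2.2⟩, rfl⟩
  refine le_trans ?_ h1
  rw [Real.volume_Icc, ENNReal.lt_div_iff_mul_lt (Or.inl (by
    rw [Ne, ENNReal.ofReal_eq_zero]; push Not; linarith)) (Or.inl ENNReal.ofReal_ne_top)] at hy1
  refine le_trans (le_of_eq ?_) hy1.le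
  rw [ENNReal.ofReal_mul (by linarith)]

/-- First exit. -/
theorem exit_time (f : C(unitInterval, ℂ)) {a b : unitInterval} (hab : a ≤ b) {r : ℝ} (hr : 0 ≤ r)
    (h : r ≤ dist (f a) (f b)) : ∃ e : unitInterval, a ≤ e ∧ e ≤ b ∧ dist (f a) (f e) = r ∧
      ∀ u : unitInterval, a ≤ u → u ≤ e → dist (f a) (f u) ≤ r := by
  have hc : Continuous fun u : unitInterval => dist (f a) (f u) :=
    continuous_const.dist f.continuous
  have hZc : IsCompact (Set.Icc a b ∩ {u : unitInterval | dist (f a) (f u) = r}) :=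
    (isClosed_Icc.inter (isClosed_eq hc continuous_const)).isCompact
  have hZn : (Set.Icc a b ∩ {u : unitInterval | dist (f a) (f u) = r}).Nonempty := by
    have h1 := intermediate_value_Icc hab hc.continuousOn
    obtain ⟨z, hz, hz2⟩ := h1 (show r ∈ Set.Icc (dist (f a) (f a)) (dist (f a) (f b)) from
      ⟨by rw [dist_self]; exact hr, h⟩)
    exact ⟨z, hz, hz2⟩
  obtain ⟨e, ⟨⟨he1, he2⟩, he3⟩, he4⟩ := hZc.exists_isLeast hZn
  refine ⟨e, he1, he2, he3, fun u hu1 hu2 => ?_⟩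
  by_contra hcon
  push Not at hcon
  have h1 := intermediate_value_Icc hu1 hc.continuousOn
  obtain ⟨z, hz, hz2⟩ := h1 (show r ∈ Set.Icc (dist (f a) (f a)) (dist (f a) (f u)) from
    ⟨by rw [dist_self]; exact hr, hcon.le⟩)
  have h2 : e ≤ z := he4 ⟨⟨hz.1, hz.2.trans (hu2.trans he2)⟩, hz2⟩
  have h3 : z = e := le_antisymm (hz.2.trans hu2) h2
  have h4 : u = e := le_antisymm hu2 (h3 ▸ hz.2)
  rw [h4] at hcon
  rw [he3] at hcon
  exact lt_irrefl _ hcon

theorem t_LI : S_LI := by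
  intro c C C1 hc hC hC1
  refine ⟨C1 * 48 ^ 3, by positivity, ?_⟩
  intro f T g hg hT hU hz hG
  obtain ⟨K, hK⟩ : ∃ K : ℝ, K = 48 ^ 3 := ⟨_, rfl⟩
  have hK0 : 0 < K := by rw [hK]; positivity
  obtain ⟨κ, hκ⟩ : ∃ κ : ℝ, κ = min (1/2) (c / (4 * K * C)) := ⟨_, rfl⟩
  have hκ0 : 0 < κ := by rw [hκ]; exact lt_min (by norm_num) (by positivity)
  have hκ1 : κ < 1 := by
    have : κ ≤ 1/2 := by rw [hκ]; exact min_le_left _ _
    linarith
  have hκ2 : K * (C * κ) ≤ c / 4 := by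
    have h1 : κ ≤ c / (4 * K * C) := by rw [hκ]; exact min_le_right _ _
    calc K * (C * κ) ≤ K * (C * (c / (4 * K * C))) :=
          mul_le_mul_of_nonneg_left (mul_le_mul_of_nonneg_left h1 hC.le) hK0.le
      _ = c / 4 := by field_simp
  -- the bad times
  have hBk : ∀ k : ℕ, volume {t : unitInterval | ∀ r : ℝ, 0 < r → r < 1 / ((k : ℝ) + 1) →
      C1 * 48 ^ 3 * psi r <
        T * (volume {u : unitInterval | dist (f u) (f t) ≤ 5 * r}).toReal} = 0 := by
    intro k
    by_contra hB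
    obtain ⟨B0, hB0⟩ : ∃ B : Set unitInterval, B = {t : unitInterval | ∀ r : ℝ, 0 < r →
      r < 1 / ((k : ℝ) + 1) → C1 * 48 ^ 3 * psi r <
        T * (volume {u : unitInterval | dist (f u) (f t) ≤ 5 * r}).toReal} := ⟨_, rfl⟩
    rw [← hB0] at hB
    have hB2 : volume (B0 ∩ {u | 0 < g u}) ≠ 0 := by
      have : volume (B0 ∩ {u | 0 < g u}) = volume B0 := by
        refine measure_inter_conull' ?_
        refine measure_mono_null ?_ hz
        rintro u ⟨-, hu⟩
        exact not_lt.1 (fun h => hu h : ¬ 0 < g u)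
      rw [this]
      exact hB
    obtain ⟨x, ⟨hxB, hxg⟩, hx1, hev⟩ := density' _ hB2 hκ0 hκ1
    have hxg' : 0 < g x := hxg
    obtain ⟨m, hm⟩ := exists_nat_one_div_lt hxg'
    -- `g` is large near `x`
    have hnear : ∀ᶠ u : unitInterval in 𝓝 x, 1 / ((m : ℝ) + 1) < g u :=
      hg.continuousAt.eventually (lt_mem_nhds hm)
    rw [Metric.eventually_nhds_iff] at hnear
    obtain ⟨d, hd, hnear⟩ := hnear
    have hev2 : ∀ᶠ y : ℝ in 𝓝[>] (x : ℝ), y ∈ Set.Ioo (x : ℝ) (min 1 (x + d)) :=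
      Ioo_mem_nhdsGT (lt_min hx1 (by linarith))
    obtain ⟨y, hy1, hy2, hy3⟩ := (hev.and hev2).exists
    have hyu : y ∈ unitInterval := ⟨x.2.1.trans hy2.le, (hy3.trans_le (min_le_left _ _)).le⟩
    obtain ⟨t, ht⟩ : ∃ t : unitInterval, t = ⟨y, hyu⟩ := ⟨_, rfl⟩
    have hty : (t : ℝ) = y := by rw [ht]
    have hvol := hy1 hyu
    rw [← ht, ← hty] at hvol
    rw [← hty] at hy2 hy3
    have hxt : x ≤ t := hy2.le
    have hbig : ∀ u ∈ Set.Icc x t, 1 / ((m : ℝ) + 1) < g u := by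
      intro u hu
      refine hnear ?_
      have h1 : (x : ℝ) ≤ u := hu.1
      have h2 : (u : ℝ) ≤ t := hu.2
      have h3 : (t : ℝ) < x + d := hy3.trans_le (min_le_right _ _)
      have e : dist u x = |(u : ℝ) - x| := rfl
      rw [e, abs_of_nonneg (by linarith)]
      linarith
    have hlen : 0 < T * ((t : ℝ) - x) := mul_pos hT (by linarith)
    obtain ⟨η1, hη1, hUP⟩ := hU (c * (T * ((t : ℝ) - x)) / (4 * K)) (by positivity)
    obtain ⟨η, hη⟩ : ∃ η : ℝ, η = min η1 (min (1 / ((k : ℝ) + 1)) (Real.exp (-1))) := ⟨_, rfl⟩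
    have hη0 : 0 < η := by
      rw [hη]
      exact lt_min hη1 (lt_min (by positivity) (Real.exp_pos _))
    have hηa : η ≤ η1 := by rw [hη]; exact min_le_left _ _
    have hηb : η ≤ 1 / ((k : ℝ) + 1) := by
      rw [hη]; exact (min_le_right _ _).trans (min_le_left _ _)
    have hηc : η ≤ Real.exp (-1) := by
      rw [hη]; exact (min_le_right _ _).trans (min_le_right _ _)
    obtain ⟨n, a, b, w, h1, h2, h3⟩ := hG m x t hxt hbig η hη0
    -- the exit times
    have hex : ∀ i : ℕ, ∃ e : unitInterval, i < n → (a i ≤ e ∧ e ≤ b i ∧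
        dist (f (a i)) (f e) = w i / 8 ∧
        ∀ u : unitInterval, a i ≤ u → u ≤ e → dist (f (a i)) (f u) ≤ w i / 8) := by
      intro i
      by_cases hi : i < n
      · obtain ⟨g1, g2, g3, g4, g5, g6, g7, g8⟩ := h1 i hi
        obtain ⟨e, he1, he2, he3, he4⟩ := exit_time f g2 (show 0 ≤ w i / 8 by positivity)
          (by linarith)
        exact ⟨e, fun _ => ⟨he1, he2, he3, he4⟩⟩
      · exact ⟨0, fun h => absurd h hi⟩
    choose e he using hex
    -- no bad times before the exit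
    have hnb : ∀ i < n, ∀ u : unitInterval, a i ≤ u → u ≤ e i → u ∉ B0 := by
      intro i hi u hu1 hu2 huB
      obtain ⟨g1, g2, g3, g4, g5, g6, g7, g8⟩ := h1 i hi
      obtain ⟨he1, he2, he3, he4⟩ := he i hi
      rw [hB0] at huB
      have k1 := huB (1 / 48 * w i) (by positivity) (by
        have : 1 / 48 * w i < w i := by linarith
        linarith)
      have k2 := psi_48 g5 (g6.trans hηc) (le_refl (1 / 48 : ℝ)) (by norm_num)
      have k3 : (volume {v : unitInterval | dist (f v) (f u) ≤ 5 * (1 / 48 * w i)}).toReal ≤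
          (volume {v : unitInterval | dist (f v) (f (a i)) < w i / 4}).toReal := by
        refine ENNReal.toReal_mono (measure_ne_top _ _) (measure_mono fun v hv => ?_)
        have hv' : dist (f v) (f u) ≤ 5 * (1 / 48 * w i) := hv
        have k4 := he4 u hu1 hu2
        have k5 := dist_triangle (f v) (f u) (f (a i))
        rw [dist_comm (f u) (f (a i))] at k5
        show dist (f v) (f (a i)) < w i / 4
        linarith
      have k6 := mul_le_mul_of_nonneg_left k3 hT.le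
      have k7 : C1 * psi (w i) ≤ C1 * (48 ^ 3 * psi (1 / 48 * w i)) :=
        mul_le_mul_of_nonneg_left k2 hC1.le
      linarith
    -- the exits are short
    have hshort : ∑ i ∈ Finset.range n, ((e i : ℝ) - a i) ≤ κ * ((t : ℝ) - x) := by
      have m1 : volume (⋃ i ∈ Finset.range n, Set.Ico (a i) (e i)) =
          ∑ i ∈ Finset.range n, volume (Set.Ico (a i) (e i)) := by
        refine measure_biUnion_finset ?_ fun i _ => measurableSet_Ico
        intro i hi j hj hij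
        rw [Finset.coe_range, Set.mem_Iio] at hi hj
        show Disjoint (Set.Ico (a i) (e i)) (Set.Ico (a j) (e j))
        rw [Set.disjoint_left]
        rintro z ⟨x1, x2⟩ ⟨x3, x4⟩
        rcases lt_or_gt_of_ne hij with h | h
        · exact absurd (x2.trans_le ((he i hi).2.1.trans (h2 i j h hj))) (not_lt.2 x3)
        · exact absurd (x4.trans_le ((he j hj).2.1.trans (h2 j i h hi))) (not_lt.2 x1)
      have m2 : ∑ i ∈ Finset.range n, volume (Set.Ico (a i) (e i)) =
          ENNReal.ofReal (∑ i ∈ Finset.range n, ((e i : ℝ) - a i)) := by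
        rw [ENNReal.ofReal_sum_of_nonneg fun i hi => by
          have : (a i : ℝ) ≤ e i := (he i (Finset.mem_range.1 hi)).1
          linarith]
        exact Finset.sum_congr rfl fun i _ => unitInterval.volume_Ico _ _
      have m3 : Disjoint ((B0 ∩ {u | 0 < g u}) ∩ Set.Icc x t)
          (⋃ i ∈ Finset.range n, Set.Ico (a i) (e i)) := by
        rw [Set.disjoint_left]
        rintro z ⟨⟨hz1, -⟩, -⟩ hz2
        simp only [Set.mem_iUnion] at hz2
        obtain ⟨i, hi, hz2⟩ := hz2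
        exact hnb i (Finset.mem_range.1 hi) z hz2.1 hz2.2.le hz1
      have m4 : MeasurableSet (⋃ i ∈ Finset.range n, Set.Ico (a i) (e i)) :=
        Finset.measurableSet_biUnion _ fun i _ => measurableSet_Ico
      have m5 : ((B0 ∩ {u | 0 < g u}) ∩ Set.Icc x t) ∪
          (⋃ i ∈ Finset.range n, Set.Ico (a i) (e i)) ⊆ Set.Icc x t := by
        rintro z (⟨-, hz⟩ | hz)
        · exact hz
        · simp only [Set.mem_iUnion] at hz
          obtain ⟨i, hi, hz⟩ := hz
          have hi' := Finset.mem_range.1 hi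
          exact ⟨(h1 i hi').1.trans hz.1, hz.2.le.trans ((he i hi').2.1.trans (h1 i hi').2.2.1)⟩
      have m6 := measure_mono (μ := (volume : Measure unitInterval)) m5
      rw [measure_union m3 m4, m1, m2, unitInterval.volume_Icc] at m6
      have m7 := (add_le_add_left hvol _).trans m6
      have hs0 : 0 ≤ ∑ i ∈ Finset.range n, ((e i : ℝ) - a i) :=
        Finset.sum_nonneg fun i hi => by
          have : (a i : ℝ) ≤ e i := (he i (Finset.mem_range.1 hi)).1
          linarith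
      have hp : 0 ≤ (1 - κ) * ((t : ℝ) - x) := mul_nonneg (by linarith) (by linarith)
      rw [← ENNReal.ofReal_add hp hs0, ENNReal.ofReal_le_ofReal_iff (by linarith)] at m7
      linarith
    have hup := hUP n a e (fun i hi => ⟨(he i hi).1, by
        have q1 : (e i : ℝ) ≤ b i := (he i hi).2.1
        have q2 := (h1 i hi).2.2.2.1
        linarith⟩) (fun i j hij hj => (he i (hij.trans hj)).2.1.trans (h2 i j hij hj))
    have hsum : ∑ i ∈ Finset.range n, psi (w i) ≤
        K * ∑ i ∈ Finset.range n, psi (dist (f (a i)) (f (e i))) := by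
      rw [Finset.mul_sum]
      refine Finset.sum_le_sum fun i hi => ?_
      have hi' := Finset.mem_range.1 hi
      obtain ⟨g1, g2, g3, g4, g5, g6, g7, g8⟩ := h1 i hi'
      have k2 := psi_48 g5 (g6.trans hηc) (show (1 / 48 : ℝ) ≤ 1 / 8 by norm_num) (by norm_num)
      rw [(he i hi').2.2.1, hK]
      have e8 : w i / 8 = 1 / 8 * w i := by ring
      rw [e8]
      exact k2
    have hCT : C * T * ∑ i ∈ Finset.range n, ((e i : ℝ) - a i) ≤
        C * T * (κ * ((t : ℝ) - x)) := mul_le_mul_of_nonneg_left hshort (by positivity)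
    have hfin : K * (C * T * (κ * ((t : ℝ) - x)) + c * (T * ((t : ℝ) - x)) / (4 * K)) ≤
        c / 2 * (T * ((t : ℝ) - x)) := by
      have e1 : K * (C * T * (κ * ((t : ℝ) - x)) + c * (T * ((t : ℝ) - x)) / (4 * K)) =
          (K * (C * κ) + c / 4) * (T * ((t : ℝ) - x)) := by
        field_simp
      rw [e1]
      exact mul_le_mul_of_nonneg_right (by linarith) hlen.le
    have h5 : K * ∑ i ∈ Finset.range n, psi (dist (f (a i)) (f (e i))) ≤
        K * (C * T * (κ * ((t : ℝ) - x)) + c * (T * ((t : ℝ) - x)) / (4 * K)) :=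
      mul_le_mul_of_nonneg_left (by linarith) hK0.le
    have h6 : 0 < c * (T * ((t : ℝ) - x)) := by positivity
    have h7 : c * T * ((t : ℝ) - x) = c * (T * ((t : ℝ) - x)) := by ring
    linarith
  -- conclusion
  unfold LI
  rw [ae_iff]
  refine measure_mono_null ?_ (measure_iUnion_null hBk)
  intro t ht
  simp only [Set.mem_ofPred_eq, not_forall, not_exists, not_and, not_le] at ht
  obtain ⟨η, hη, h⟩ := ht
  obtain ⟨k, hk⟩ := exists_nat_one_div_lt hη
  rw [Set.mem_iUnion]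
  exact ⟨k, fun r hr hrk => h r hr (hrk.trans hk)⟩

end Pool.Agent.J4H94.PK
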